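import Pool.Agent.Q155.OrAnd.Proj

set_option autoImplicit false

/-! Boolean functions concentrated within partition blocks have OR/AND structure. -/

namespace Pool.Agent.Results.MP_c2536d_co.OrAnd

open Q155.OrAnd

/-- A sign as a real number. -/
def val (s : ℤˣ) : ℝ := ((s : ℤ) : ℝ)

/-- The expectation over the uniform distribution on `{±1}^m`. -/
noncomputable def E {m : ℕ} (F : (Fin m → ℤˣ) → ℝ) : ℝ := (∑ x, F x) / 2 ^ m

/-- The character `χ_S`. -/
noncomputable def chi {m : ℕ} (S : Finset (Fin m)) (x : Fin m → ℤˣ) : ℝ := ∏ i ∈ S, val (x i)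

/-- The Fourier coefficient of a Boolean function. -/
noncomputable def coef {m : ℕ} (f : (Fin m → ℤˣ) → ℤˣ) (S : Finset (Fin m)) : ℝ :=
  E fun x => val (f x) * chi S x

/-- `I` is a partition of `[m]` into nonempty blocks. -/
def IsPartition {m n : ℕ} (I : Fin n → Finset (Fin m)) : Prop :=
  (∀ j, (I j).Nonempty) ∧ ∀ i, ∃! j, i ∈ I j

/-- `f` is `ε`-concentrated on the partition `I`. -/
def Concentrated {m n : ℕ} (I : Fin n → Finset (Fin m)) (ε : ℝ) (f : (Fin m → ℤˣ) → ℤˣ) : Prop :=
  1 - ε ≤ ∑ S ∈ Finset.univ.filter (fun S : Finset (Fin m) => ∃ j, S ⊆ I j), coef f S ^ 2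

/-- The Boolean OR, with `-1` for true. -/
noncomputable def OR {n : ℕ} (y : Fin n → ℤˣ) : ℤˣ :=
  open Classical in if ∃ j, y j = -1 then -1 else 1

/-- The Boolean AND, with `-1` for true. -/
noncomputable def AND {n : ℕ} (y : Fin n → ℤˣ) : ℤˣ :=
  open Classical in if ∀ j, y j = -1 then -1 else 1

theorem E_eq {m : ℕ} (F : (Fin m → ℤˣ) → ℝ) : E F = Ex F := by
  unfold E Ex
  rw [Fintype.card_fun, Fintype.card_units_int, Fintype.card_fin]
  push_cast
  rfl

theorem val_cases (s : ℤˣ) : (s = 1 ∧ val s = 1) ∨ (s = -1 ∧ val s = -1) := by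
  rcases Int.units_eq_one_or s with rfl | rfl
  · left
    exact ⟨rfl, by simp [val]⟩
  · right
    exact ⟨rfl, by simp [val]⟩

theorem val_sq (s : ℤˣ) : val s ^ 2 = 1 := by
  rcases val_cases s with ⟨-, h⟩ | ⟨-, h⟩ <;> rw [h] <;> norm_num

theorem Ex_val : Ex val = 0 := by
  unfold Ex
  have : (Finset.univ : Finset ℤˣ) = {1, -1} := by decide
  rw [this, Finset.sum_pair (by decide)]
  simp [val]

/-- Orthonormality of the characters. -/
theorem orthonormal {m : ℕ} (S T : Finset (Fin m)) :
    Ex (fun x : Fin m → ℤˣ => chi S x * chi T x) = if S = T then 1 else 0 := by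
  classical
  have h1 : (fun x : Fin m → ℤˣ => chi S x * chi T x) = fun x =>
      ∏ i, ((if i ∈ S then val (x i) else 1) * (if i ∈ T then val (x i) else 1)) := by
    funext x
    unfold chi
    rw [Finset.prod_mul_distrib, Finset.prod_ite_mem, Finset.prod_ite_mem, Finset.univ_inter,
      Finset.univ_inter]
  rw [h1, Ex_prod (fun i (a : ℤˣ) => (if i ∈ S then val a else 1) * (if i ∈ T then val a else 1))]
  split_ifs with h
  · subst h
    apply Finset.prod_eq_one
    intro i _
    by_cases hi : i ∈ S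
    · simp only [if_pos hi]
      have : (fun a : ℤˣ => val a * val a) = fun _ => 1 := by
        funext a
        rw [← sq, val_sq]
      rw [this, Ex_const]
    · simp only [if_neg hi, mul_one]
      exact Ex_const _
  · obtain ⟨i, hi⟩ : ∃ i, ¬ (i ∈ S ↔ i ∈ T) := by
      by_contra hcon
      push Not at hcon
      exact h (Finset.ext hcon)
    apply Finset.prod_eq_zero (Finset.mem_univ i)
    by_cases h1 : i ∈ S
    · have h2 : i ∉ T := fun h3 => hi ⟨fun _ => h3, fun _ => h1⟩
      simp only [if_pos h1, if_neg h2, mul_one]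
      exact Ex_val
    · have h2 : i ∈ T := by
        by_contra h3
        exact hi ⟨fun h => absurd h h1, fun h => absurd h h3⟩
      simp only [if_neg h1, if_pos h2, one_mul]
      exact Ex_val

/-- The part of `f` within the blocks. -/
noncomputable def TT {m : ℕ} (f : (Fin m → ℤˣ) → ℤˣ) (P : Finset (Finset (Fin m)))
    (x : Fin m → ℤˣ) : ℝ := ∑ S ∈ P, coef f S * chi S x

theorem dist_TT {m : ℕ} (f : (Fin m → ℤˣ) → ℤˣ) (P : Finset (Finset (Fin m))) :
    Ex (fun x => (val (f x) - TT f P x) ^ 2) = 1 - ∑ S ∈ P, coef f S ^ 2 := by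
  classical
  have h1 : (fun x => (val (f x) - TT f P x) ^ 2) = fun x =>
      (1 - 2 * ∑ S ∈ P, coef f S * (val (f x) * chi S x)) +
        ∑ S ∈ P, ∑ T ∈ P, (coef f S * coef f T) * (chi S x * chi T x) := by
    funext x
    have h2 : ∑ S ∈ P, ∑ T ∈ P, (coef f S * coef f T) * (chi S x * chi T x) = TT f P x ^ 2 := by
      unfold TT
      rw [sq, Finset.sum_mul_sum]
      apply Finset.sum_congr rfl
      intro S _
      apply Finset.sum_congr rfl
      intro T _
      ring
    have h3 : ∑ S ∈ P, coef f S * (val (f x) * chi S x) = val (f x) * TT f P x := by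
      unfold TT
      rw [Finset.mul_sum]
      apply Finset.sum_congr rfl
      intro S _
      ring
    rw [h2, h3, ← val_sq (f x)]
    ring
  rw [h1, Ex_add, Ex_sub, Ex_mul_left, Ex_sum, Ex_sum, Ex_const]
  have h2 : ∑ S ∈ P, Ex (fun x => coef f S * (val (f x) * chi S x)) = ∑ S ∈ P, coef f S ^ 2 := by
    apply Finset.sum_congr rfl
    intro S _
    rw [Ex_mul_left, ← E_eq, sq]
    rfl
  have h3 : ∑ S ∈ P, Ex (fun x => ∑ T ∈ P, (coef f S * coef f T) * (chi S x * chi T x)) =
      ∑ S ∈ P, coef f S ^ 2 := by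
    apply Finset.sum_congr rfl
    intro S hS
    rw [Ex_sum, Finset.sum_eq_single S]
    · rw [Ex_mul_left, orthonormal, if_pos rfl, mul_one, sq]
    · intro T _ hT
      rw [Ex_mul_left, orthonormal, if_neg hT.symm, mul_zero]
    · intro h
      exact absurd hS h
  rw [h2, h3]
  ring

section transfer

variable {m n : ℕ} {I : Fin n → Finset (Fin m)}

/-- The restriction to the blocks. -/
def rest (I : Fin n → Finset (Fin m)) (x : Fin m → ℤˣ) (j : Fin n) : {i // i ∈ I j} → ℤˣ :=
  fun i => x i

theorem rest_bij (hI : ∀ i, ∃! j, i ∈ I j) : Function.Bijective (rest I) := by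
  constructor
  · intro x y h
    funext i
    obtain ⟨j, hj, -⟩ := hI i
    have := congrFun (congrFun h j) ⟨i, hj⟩
    exact this
  · intro ω
    choose b hb hb' using hI
    refine ⟨fun i => ω (b i) ⟨i, hb i⟩, ?_⟩
    funext j i
    obtain ⟨i, hi⟩ := i
    have h1 : j = b i := hb' i j hi
    subst h1
    rfl

/-- The form of the theorem for one sign. -/
theorem main_sign (hm : 1 ≤ m) (hI : ∀ i, ∃! j, i ∈ I j) {ε : ℝ} (hε : ε ≤ 1)
    {f : (Fin m → ℤˣ) → ℤˣ} (hf : Concentrated I ε f) {s : ℝ} (hs : s = 1 ∨ s = -1)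
    (hE : 0 ≤ s * E (fun x => val (f x))) :
    ∃ H : ∀ j, Set ({i // i ∈ I j} → ℤˣ), ∃ G : (Fin m → ℤˣ) → ℝ, E G ≤ K₀ * (ε / 4) ∧
      (∀ x, 0 ≤ G x) ∧ ∀ x, ¬ (s * val (f x) = -1 ↔ ∃ j, rest I x j ∈ H j) → 1 ≤ G x := by
  classical
  have : Nonempty (Fin n) := by
    obtain ⟨j, -, -⟩ := hI ⟨0, hm⟩
    exact ⟨j⟩
  have hs2 : s ^ 2 = 1 := by rcases hs with rfl | rfl <;> norm_num
  set e := Equiv.ofBijective (rest I) (rest_bij hI) with he
  set P := Finset.univ.filter (fun S : Finset (Fin m) => ∃ j, S ⊆ I j) with hP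
  set g : (∀ j, {i // i ∈ I j} → ℤˣ) → ℝ := fun ω => (1 - s * val (f (e.symm ω))) / 2 with hg
  set T : (∀ j, {i // i ∈ I j} → ℤˣ) → ℝ := fun ω => (1 - s * TT f P (e.symm ω)) / 2 with hT
  have hg01 : ∀ ω, g ω = 0 ∨ g ω = 1 := by
    intro ω
    rw [hg]
    rcases hs with h | h <;> rcases val_cases (f (e.symm ω)) with ⟨-, h2⟩ | ⟨-, h2⟩ <;>
      simp only [h, h2] <;> norm_num
  have hgE : Ex g ≤ 1 / 2 := by
    rw [← Ex_equiv e]
    have h1 : (fun x => g (e x)) = fun x => 1 / 2 - (s / 2) * val (f x) := by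
      funext x
      rw [hg]
      beta_reduce
      rw [Equiv.symm_apply_apply]
      ring
    rw [h1, Ex_sub, Ex_const, Ex_mul_left, ← E_eq]
    linarith
  have hTorth : ∀ F : (∀ j, {i // i ∈ I j} → ℤˣ) → ℝ,
      (∀ j (φ : ({i // i ∈ I j} → ℤˣ) → ℝ), Ex (fun ω => F ω * φ (ω j)) = 0) →
      Ex (fun ω => F ω * T ω) = 0 := by
    intro F hF
    have h1 : (fun ω => F ω * T ω) = fun ω => F ω * (1 / 2) -
        ∑ S ∈ P, (s / 2 * coef f S) * (F ω * chi S (e.symm ω)) := by
      funext ω
      rw [hT]
      beta_reduce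
      unfold TT
      have h2 : ∑ S ∈ P, (s / 2 * coef f S) * (F ω * chi S (e.symm ω)) =
          (s / 2 * F ω) * ∑ S ∈ P, coef f S * chi S (e.symm ω) := by
        rw [Finset.mul_sum]
        apply Finset.sum_congr rfl
        intro S _
        ring
      rw [h2]
      ring
    rw [h1, Ex_sub, Ex_sum, hF (Classical.arbitrary _) (fun _ => 1 / 2), zero_sub,
      neg_eq_zero]
    apply Finset.sum_eq_zero
    intro S hS
    rw [hP, Finset.mem_filter] at hS
    obtain ⟨-, j, hj⟩ := hS
    rw [Ex_mul_left]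
    have h2 : (fun ω : ∀ j, {i // i ∈ I j} → ℤˣ => F ω * chi S (e.symm ω)) = fun ω =>
        F ω * ∏ i ∈ S, (if h : i ∈ I j then val (ω j ⟨i, h⟩) else 1) := by
      funext ω
      congr 1
      unfold chi
      apply Finset.prod_congr rfl
      intro i hi
      rw [dif_pos (hj hi)]
      have h3 : e (e.symm ω) = ω := e.apply_symm_apply ω
      have h4 : rest I (e.symm ω) j ⟨i, hj hi⟩ = ω j ⟨i, hj hi⟩ :=
        congrFun (congrFun h3 j) ⟨i, hj hi⟩
      rw [← h4]
      rfl
    rw [h2, hF j (fun y => ∏ i ∈ S, (if h : i ∈ I j then val (y ⟨i, h⟩) else 1)), mul_zero]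
  have hdist : Ex (fun ω => (g ω - T ω) ^ 2) ≤ ε / 4 := by
    rw [← Ex_equiv e]
    have h1 : (fun x => (g (e x) - T (e x)) ^ 2) = fun x =>
        (1 / 4) * (val (f x) - TT f P x) ^ 2 := by
      funext x
      rw [hg, hT]
      beta_reduce
      rw [Equiv.symm_apply_apply]
      have : ((1 - s * val (f x)) / 2 - (1 - s * TT f P x) / 2) ^ 2 =
          s ^ 2 / 4 * (val (f x) - TT f P x) ^ 2 := by ring
      rw [this, hs2]
    rw [h1, Ex_mul_left, dist_TT]
    unfold Concentrated at hf
    rw [← hP] at hf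
    linarith
  obtain ⟨H, G, hG1, hG2, hG3⟩ := core' hg01 hgE hTorth (by linarith) hdist
  refine ⟨H, fun x => G (e x), ?_, fun x => hG2 _, ?_⟩
  · rw [E_eq, Ex_equiv e]
    exact hG1
  · intro x hx
    apply hG3 (e x)
    intro hcon
    apply hx
    rw [hg] at hcon
    beta_reduce at hcon
    rw [Equiv.symm_apply_apply] at hcon
    have h1 : (1 - s * val (f x)) / 2 = 1 ↔ s * val (f x) = -1 := by
      constructor <;> intro h <;> linarith
    rw [h1] at hcon
    exact hcon

end transfer

theorem E_mono {m : ℕ} {F G : (Fin m → ℤˣ) → ℝ} (h : ∀ x, F x ≤ G x) : E F ≤ E G := by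
  rw [E_eq, E_eq]
  exact Ex_mono h

theorem E_mul_left {m : ℕ} (c : ℝ) (F : (Fin m → ℤˣ) → ℝ) :
    E (fun x => c * F x) = c * E F := by
  rw [E_eq, E_eq, Ex_mul_left]

theorem val_sub_sq_le (s t : ℤˣ) : (val s - val t) ^ 2 ≤ 4 := by
  rcases val_cases s with ⟨-, h⟩ | ⟨-, h⟩ <;> rcases val_cases t with ⟨-, h2⟩ | ⟨-, h2⟩ <;>
    rw [h, h2] <;> norm_num

/-- There is a universal constant `K` such that every Boolean function on `{±1}^m`, `m ≥ 1`, which
is `ε`-concentrated on a partition `(I_j)` of `[m]` into nonempty blocks is within squared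
`L_2` distance `K ε` of an OR or of an AND of Boolean functions `h_j` of the blocks. -/
theorem result : ∃ K : ℝ, ∀ (m n : ℕ) (I : Fin n → Finset (Fin m)) (ε : ℝ)
    (f : (Fin m → ℤˣ) → ℤˣ), 1 ≤ m → IsPartition I → 0 ≤ ε → Concentrated I ε f →
    ∃ h : ∀ j, ({i // i ∈ I j} → ℤˣ) → ℤˣ,
      E (fun x => (val (f x) - val (OR fun j => h j fun i => x i)) ^ 2) ≤ K * ε ∨
      E (fun x => (val (f x) - val (AND fun j => h j fun i => x i)) ^ 2) ≤ K * ε := by
  classical
  refine ⟨K₀ + 4, ?_⟩
  intro m n I ε f hm hI hε0 hf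
  have hK := K₀_pos
  rcases le_or_gt ε 1 with hε | hε
  · rcases le_total 0 (E (fun x => val (f x))) with hE | hE
    · obtain ⟨H, G, hG1, hG2, hG3⟩ := main_sign hm hI.2 hε hf (Or.inl rfl) (by linarith)
      refine ⟨fun j y => if y ∈ H j then -1 else 1, Or.inl ?_⟩
      have h1 : E (fun x => (val (f x) - val (OR fun j =>
          (if (fun i : {i // i ∈ I j} => x i) ∈ H j then (-1 : ℤˣ) else 1))) ^ 2) ≤
          E (fun x => 4 * G x) := by
        apply E_mono
        intro x
        by_cases hx : (1 * val (f x) = -1 ↔ ∃ j, rest I x j ∈ H j)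
        · have h2 : f x = OR fun j =>
              (if (fun i : {i // i ∈ I j} => x i) ∈ H j then (-1 : ℤˣ) else 1) := by
            unfold OR
            rw [one_mul] at hx
            by_cases h3 : ∃ j, rest I x j ∈ H j
            · rw [if_pos]
              · rcases val_cases (f x) with ⟨-, h4⟩ | ⟨h4, -⟩
                · rw [hx.2 h3] at h4
                  norm_num at h4
                · exact h4
              · obtain ⟨j, hj⟩ := h3
                exact ⟨j, if_pos hj⟩
            · rw [if_neg]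
              · rcases val_cases (f x) with ⟨h4, -⟩ | ⟨-, h4⟩
                · exact h4
                · exact absurd (hx.1 h4) h3
              · rintro ⟨j, hj⟩
                apply h3
                refine ⟨j, ?_⟩
                by_contra h4
                have h5 : (1 : ℤˣ) = -1 := (if_neg h4).symm.trans hj
                exact absurd h5 (by decide)
          rw [← h2, sub_self]
          have := hG2 x
          nlinarith
        · have h2 := hG3 x hx
          have h3 := val_sub_sq_le (f x) (OR fun j =>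
              (if (fun i : {i // i ∈ I j} => x i) ∈ H j then (-1 : ℤˣ) else 1))
          linarith
      rw [E_mul_left] at h1
      refine h1.trans ?_
      nlinarith
    · obtain ⟨H, G, hG1, hG2, hG3⟩ := main_sign hm hI.2 hε hf (Or.inr rfl) (by linarith)
      refine ⟨fun j y => if y ∈ H j then 1 else -1, Or.inr ?_⟩
      have h1 : E (fun x => (val (f x) - val (AND fun j =>
          (if (fun i : {i // i ∈ I j} => x i) ∈ H j then (1 : ℤˣ) else -1))) ^ 2) ≤
          E (fun x => 4 * G x) := by
        apply E_mono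
        intro x
        by_cases hx : (-1 * val (f x) = -1 ↔ ∃ j, rest I x j ∈ H j)
        · have h2 : f x = AND fun j =>
              (if (fun i : {i // i ∈ I j} => x i) ∈ H j then (1 : ℤˣ) else -1) := by
            unfold AND
            by_cases h3 : ∃ j, rest I x j ∈ H j
            · rw [if_neg]
              · rcases val_cases (f x) with ⟨h4, -⟩ | ⟨-, h4⟩
                · exact h4
                · have h5 := hx.2 h3
                  rw [h4] at h5
                  norm_num at h5
              · obtain ⟨j, hj⟩ := h3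
                intro h4
                have h5 : (1 : ℤˣ) = -1 := (if_pos hj).symm.trans (h4 j)
                exact absurd h5 (by decide)
            · rw [if_pos]
              · rcases val_cases (f x) with ⟨-, h4⟩ | ⟨h4, -⟩
                · exfalso
                  apply h3
                  apply hx.1
                  rw [h4]
                  norm_num
                · exact h4
              · intro j
                exact if_neg fun hj => h3 ⟨j, hj⟩
          rw [← h2, sub_self]
          have := hG2 x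
          nlinarith
        · have h2 := hG3 x hx
          have h3 := val_sub_sq_le (f x) (AND fun j =>
              (if (fun i : {i // i ∈ I j} => x i) ∈ H j then (1 : ℤˣ) else -1))
          linarith
      rw [E_mul_left] at h1
      refine h1.trans ?_
      nlinarith
  · refine ⟨fun _ _ => 1, Or.inl ?_⟩
    have h1 : E (fun x => (val (f x) - val (OR fun _ : Fin n => (1 : ℤˣ))) ^ 2) ≤
        E (fun _ : Fin m → ℤˣ => (4 : ℝ)) := E_mono fun x => val_sub_sq_le _ _
    rw [E_eq (fun _ => (4 : ℝ)), Ex_const] at h1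
    refine h1.trans ?_
    nlinarith

end Pool.Agent.Results.MP_c2536d_co.OrAnd
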